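import Pool.Agent.TOR.Stmts

/-!
# Row tor:MON, rules for `Mon`
-/

set_option autoImplicit false

namespace Pool.Agent.TOR.H21

open MvPolynomial
open Pool.Agent.TOR

theorem vec_add (s t : ℕ →₀ ℕ) : vec (s + t) = vec s + vec t := by
  ext l
  simp [vec]

theorem vec_apply (s : ℕ →₀ ℕ) (l : ℕ) : vec s l = (s l : ℚ) := by
  simp [vec]

theorem mon_mul {E : Type} [Field E] (L L' : Submodule ℚ (ℕ →₀ ℚ)) (ν ν' : ℕ →₀ ℚ)
    (f g : MvPolynomial ℕ E) (hf : Mon L ν f) (hg : Mon L' ν' g) :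
    Mon (L ⊔ L') (ν + ν') (f * g) := by
  classical
  intro s hs
  have h1 := support_mul f g hs
  rw [Finset.mem_add] at h1
  obtain ⟨a, ha, b, hb, rfl⟩ := h1
  rw [vec_add]
  have e : vec a + vec b - (ν + ν') = (vec a - ν) + (vec b - ν') := by abel
  rw [e]
  exact Submodule.add_mem_sup (hf a ha) (hg b hb)

theorem mon_one {E : Type} [Field E] : Mon (E := E) ⊥ 0 1 := by
  classical
  intro s hs
  rw [mem_support_iff, coeff_one] at hs
  have h0 : 0 = s := by
    by_contra h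
    exact hs (if_neg h)
  rw [← h0]
  simp [vec]

theorem mon_le {E : Type} [Field E] {L L' : Submodule ℚ (ℕ →₀ ℚ)} {ν : ℕ →₀ ℚ}
    {f : MvPolynomial ℕ E} (h : L ≤ L') (hf : Mon L ν f) : Mon L' ν f := fun s hs => h (hf s hs)

theorem mon_prod {E : Type} [Field E] {ι : Type} (S : Finset ι) (L : ι → Submodule ℚ (ℕ →₀ ℚ))
    (ν : ι → ℕ →₀ ℚ) (f : ι → MvPolynomial ℕ E) (h : ∀ i, Mon (L i) (ν i) (f i)) :
    Mon (⨆ i ∈ S, L i) (∑ i ∈ S, ν i) (∏ i ∈ S, f i) := by
  classical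
  induction S using Finset.induction_on with
  | empty => simpa using mon_one
  | insert i S hi ih =>
      rw [Finset.sum_insert hi, Finset.prod_insert hi]
      refine mon_le ?_ (mon_mul _ _ _ _ _ _ (h i) ih)
      rw [Finset.iSup_insert]

theorem mon_lin {E : Type} [Field E] {L : Submodule ℚ (ℕ →₀ ℚ)} {ν : ℕ →₀ ℚ}
    {f g : MvPolynomial ℕ E} (hf : Mon L ν f) (hg : Mon L ν g) :
    Mon L ν (f - g) ∧ Mon L ν (f + g) := by
  classical
  constructor
  · intro s hs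
    rcases Finset.mem_union.1 (support_sub ℕ f g hs) with h | h
    · exact hf s h
    · exact hg s h
  · intro s hs
    rcases Finset.mem_union.1 (support_add hs) with h | h
    · exact hf s h
    · exact hg s h

theorem Du_monomial {E : Type} [Field E] (u : ℕ → E) (s : ℕ →₀ ℕ) (a : E) :
    ∃ b : E, Du u (monomial s a) = monomial s b := by
  classical
  unfold Du
  rw [mkDerivation_monomial]
  refine ⟨a * ∑ l ∈ s.support, (s l : E) * u l, ?_⟩
  rw [Finsupp.sum, Finset.mul_sum, map_sum, Finset.smul_sum]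
  refine Finset.sum_congr rfl fun l hl => ?_
  have hl0 : s l ≠ 0 := Finsupp.mem_support_iff.1 hl
  have e1 : (s - Finsupp.single l 1) + Finsupp.single l 1 = s :=
    tsub_add_cancel_of_le (Finsupp.single_le_iff.2 (Nat.one_le_iff_ne_zero.2 hl0))
  rw [smul_eq_mul, smul_eq_C_mul, X, C_mul_monomial, monomial_mul, e1, C_mul_monomial]
  congr 1
  ring

theorem mon_Du {E : Type} [Field E] {L : Submodule ℚ (ℕ →₀ ℚ)} {ν : ℕ →₀ ℚ}
    {f : MvPolynomial ℕ E} (u : ℕ → E) (hf : Mon L ν f) : Mon L ν (Du u f) := by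
  classical
  intro s hs
  refine hf s ?_
  by_contra hn
  rw [mem_support_iff] at hs
  apply hs
  rw [f.as_sum, map_sum, coeff_sum]
  refine Finset.sum_eq_zero fun t ht => ?_
  obtain ⟨b, hb⟩ := Du_monomial u t (coeff t f)
  rw [hb, coeff_monomial, if_neg]
  rintro rfl
  exact hn ht

/-- the difference of two exponent vectors -/
noncomputable def dz (s t : ℕ →₀ ℕ) : ℕ →₀ ℤ :=
  s.mapRange (fun a : ℕ => (a : ℤ)) Nat.cast_zero - t.mapRange (fun a : ℕ => (a : ℤ)) Nat.cast_zero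

theorem dz_apply (s t : ℕ →₀ ℕ) (l : ℕ) : dz s t l = (s l : ℤ) - (t l : ℤ) := by
  simp [dz]

theorem zvec_dz (s t : ℕ →₀ ℕ) : zvec (dz s t) = vec s - vec t := by
  ext l
  simp [zvec, dz_apply, vec_apply]

theorem mon_thin {E : Type} [Field E] (c n D : ℕ) (f : MvPolynomial ℕ E) (h : IsThin E c n D f) :
    IntSpan n D (vectorSpan ℚ (vec '' (f.support : Set (ℕ →₀ ℕ)))) ∧
    ∀ s ∈ f.support, (∀ l, s l ≤ D) ∧ ∀ l, n ≤ l → s l = 0 := by
  classical
  have hs : ∀ s ∈ f.support, (∀ l, s l ≤ D) ∧ ∀ l, n ≤ l → s l = 0 := by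
    intro s hs
    refine ⟨fun l => ?_, fun l hl => ?_⟩
    · by_cases h0 : s l = 0
      · rw [h0]
        exact Nat.zero_le _
      · have h1 := (le_totalDegree hs).trans h.2.1
        refine le_trans ?_ h1
        exact Finset.single_le_sum (f := fun l => s l) (fun _ _ => Nat.zero_le _)
          (Finsupp.mem_support_iff.2 h0)
    · by_contra h0
      have h1 : l ∈ f.vars := (mem_vars_iff_mem_support l).2 ⟨s, hs, Finsupp.mem_support_iff.2 h0⟩
      have h2 := Finset.mem_range.1 (h.1 h1)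
      omega
  refine ⟨⟨(f.support ×ˢ f.support).image fun p => dz p.1 p.2, ?_, ?_⟩, hs⟩
  · intro g hg
    obtain ⟨⟨s, t⟩, hst, rfl⟩ := Finset.mem_image.1 hg
    obtain ⟨h1, h2⟩ := Finset.mem_product.1 hst
    refine ⟨fun l => ?_, fun l hl => ?_⟩
    · rw [dz_apply, abs_le]
      have e1 := (hs s h1).1 l
      have e2 := (hs t h2).1 l
      show -(D : ℤ) ≤ (s l : ℤ) - (t l : ℤ) ∧ (s l : ℤ) - (t l : ℤ) ≤ D
      omega
    · rw [dz_apply]
      have e1 := (hs s h1).2 l hl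
      have e2 := (hs t h2).2 l hl
      show (s l : ℤ) - (t l : ℤ) = 0
      omega
  · rw [vectorSpan_def]
    congr 1
    ext v
    simp only [Set.mem_vsub, Set.mem_image, Finset.mem_coe, Finset.coe_image, Finset.coe_product,
      Set.mem_prod, Prod.exists]
    constructor
    · rintro ⟨_, ⟨s, h1, rfl⟩, _, ⟨t, h2, rfl⟩, rfl⟩
      exact ⟨dz s t, ⟨s, t, ⟨h1, h2⟩, rfl⟩, zvec_dz s t⟩
    · rintro ⟨_, ⟨s, t, ⟨h1, h2⟩, rfl⟩, rfl⟩
      exact ⟨vec s, ⟨s, h1, rfl⟩, vec t, ⟨t, h2, rfl⟩, (zvec_dz s t).symm⟩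

theorem mon : MonStmt := by
  intro E _
  refine ⟨mon_mul, ?_, ?_, ?_, ?_, ?_, mon_thin⟩
  · intro ι _ L ν f h
    have h1 := mon_prod Finset.univ L ν f h
    simpa using h1
  · intro L L' ν f h hf
    exact mon_le h hf
  · intro L ν f g hf hg
    exact mon_lin hf hg
  · intro L ν f u hf
    exact mon_Du u hf
  · intro f hf
    obtain ⟨s₀, hs₀⟩ := Finset.nonempty_iff_ne_empty.2 (fun h => hf (support_eq_empty.1 h))
    refine ⟨s₀, hs₀, fun s hs => ?_⟩
    exact vsub_mem_vectorSpan ℚ ⟨s, hs, rfl⟩ ⟨s₀, hs₀, rfl⟩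

end Pool.Agent.TOR.H21
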